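import Mathlib
import Pool.Agent.H66.NR2

set_option autoImplicit false

namespace Pool.Agent.Results.MP_6ce170_co.Full

open Pool.Agent.H66.NR

/-- `G` has a clique on `t` vertices all of whose edges get colour `i` under `c`. -/
def Mono {V C : Type} (G : SimpleGraph V) (c : Sym2 V → C) (i : C) (t : ℕ) : Prop :=
  ∃ S : Finset V, G.IsNClique t S ∧ ∀ u ∈ S, ∀ v ∈ S, u ≠ v → c s(u, v) = i

open Classical in
noncomputable def lB {A B : Type} (s : Set (A × B)) : WithBot Bool :=
  if s.ncard = 2 then (if ∀ x ∈ s, ∀ y ∈ s, x.2 = y.2 then ((true : Bool) : WithBot Bool)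
    else ((false : Bool) : WithBot Bool)) else ⊥

lemma lB_red {A B : Type} {x y : A × B} (h : x ≠ y) (e : x.2 = y.2) :
    lB {x, y} = ((true : Bool) : WithBot Bool) := by
  unfold lB
  rw [if_pos (Set.ncard_pair h), if_pos (by simp [e])]

lemma lB_blue {A B : Type} {x y : A × B} (e : x.2 ≠ y.2) :
    lB {x, y} = ((false : Bool) : WithBot Bool) := by
  unfold lB
  rw [if_pos (Set.ncard_pair fun h => e (by rw [h])), if_neg (fun h => e (h x (by simp) y (by simp)))]

lemma pure {A B : Type} {x y : A × B} (h : x ≠ y) : Pure lB 2 (lB {x, y}) {x, y} := by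
  refine ⟨Set.ncard_pair h, rfl, fun s hs => ?_⟩
  have := Set.ncard_lt_ncard hs
  rw [Set.ncard_pair h] at this
  unfold lB
  rw [if_neg this.ne]

theorem result (k l : ℕ) (hl : 3 ≤ l) (hk : l ≤ k) :
    ∃ (V : Type) (_ : Finite V) (G : SimpleGraph V),
      (∃ c : Sym2 V → Fin 2, ¬ Mono G c 0 k ∧ ¬ Mono G c 1 l) ∧
      ∀ c : Sym2 V → Fin 3, Mono G c 0 (k - 1) ∨ Mono G c 1 (k - 1) ∨ Mono G c 2 l := by
  classical
  obtain ⟨V, hV, lab, hloc, hram⟩ := nr (β := Fin (k - 1) × Fin (l - 1)) (Fin 3) lB 2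
    [(2, ((true : Bool) : WithBot Bool)), (2, ((false : Bool) : WithBot Bool))] (by simp)
  let G : SimpleGraph V :=
    { Adj := fun u v => u ≠ v ∧ lab {u, v} ≠ ⊥
      symm := ⟨fun u v h => ⟨h.1.symm, by rw [Set.pair_comm]; exact h.2⟩⟩
      loopless := ⟨fun _ h => h.1 rfl⟩ }
  have loc : ∀ t (S : Finset V), 3 ≤ t → G.IsNClique t S →
      ∃ f : V → Fin (k - 1) × Fin (l - 1), Set.InjOn f S ∧
        ∀ u ∈ S, ∀ v ∈ S, lB {f u, f v} = lab {u, v} := by
    intro t S ht hS
    obtain ⟨f, h1, h2⟩ := hloc.1 S (by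
      intro u hu v hv
      by_cases e : u = v
      · obtain ⟨w, hw, hwu⟩ := Finset.exists_mem_ne (s := S) (by rw [hS.card_eq]; omega) u
        exact ⟨{u, w}, Set.pair_subset hu hw, (hS.isClique hu hw hwu.symm).2, by simp, by simp [e]⟩
      · exact ⟨{u, v}, Set.pair_subset hu hv, (hS.isClique hu hv e).2, by simp, by simp⟩)
      (by rw [Set.ncard_coe_finset, hS.card_eq]; omega)
    refine ⟨f, h1, fun u hu v hv => ?_⟩
    rw [← h2 {u, v} (Set.pair_subset hu hv), Set.image_pair]
  refine ⟨V, hV, G, ⟨fun e => if lab (e : Set V) = ((true : Bool) : WithBot Bool) then 0 else 1,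
    ?_, ?_⟩, fun c => ?_⟩
  · rintro ⟨S, hS, h⟩
    obtain ⟨f, h1, h2⟩ := loc k S (by omega) hS
    have := Finset.card_le_card_of_injOn (s := S) (t := Finset.univ) (fun u => (f u).1)
      (fun _ _ => Finset.mem_coe.2 (Finset.mem_univ _)) (by
        intro u hu v hv e
        by_contra hne
        have h3 := h u hu v hv hne
        simp only [Sym2.coe_mk, ite_eq_left_iff, one_ne_zero, imp_false, not_not] at h3
        by_cases e2 : (f u).2 = (f v).2
        · exact hne (h1 hu hv (Prod.ext e e2))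
        · rw [← h2 u hu v hv, lB_blue e2] at h3
          simp at h3)
    rw [hS.card_eq] at this
    simp at this
    omega
  · rintro ⟨S, hS, h⟩
    obtain ⟨f, h1, h2⟩ := loc l S hl hS
    have := Finset.card_le_card_of_injOn (s := S) (t := Finset.univ) (fun u => (f u).2)
      (fun _ _ => Finset.mem_coe.2 (Finset.mem_univ _)) (by
        intro u hu v hv e
        by_contra hne
        have h3 := h u hu v hv hne
        simp only [Sym2.coe_mk, ite_eq_right_iff, zero_ne_one, imp_false] at h3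
        rw [← h2 u hu v hv, lB_red (fun e' => hne (h1 hu hv e')) e] at h3
        exact h3 rfl)
    rw [hS.card_eq] at this
    simp at this
    omega
  · obtain ⟨ψ, hψ, h⟩ := hram fun s => if h : ∃ e : Sym2 V, (e : Set V) = s then c h.choose else 0
    have hχ : ∀ u v : V, (if h : ∃ e : Sym2 V, (e : Set V) = {u, v} then c h.choose else 0) =
        c s(u, v) := by
      intro u v
      have h : ∃ e : Sym2 V, (e : Set V) = {u, v} := ⟨s(u, v), Sym2.coe_mk⟩
      rw [dif_pos h]
      congr 1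
      apply SetLike.coe_injective
      exact h.choose_spec.trans Sym2.coe_mk.symm
    have same : ∀ x y x' y' : Fin (k - 1) × Fin (l - 1), x ≠ y → x' ≠ y' →
        (x.2 = y.2 ↔ x'.2 = y'.2) → c s(ψ x, ψ y) = c s(ψ x', ψ y') := by
      intro x y x' y' n1 n2 e
      rw [← hχ, ← hχ, ← Set.image_pair, ← Set.image_pair]
      by_cases e1 : x.2 = y.2
      · exact h (2, _) List.mem_cons_self _ _ (lB_red n1 e1 ▸ pure n1) (lB_red n2 (e.1 e1) ▸ pure n2)
      · exact h (2, _) (List.mem_cons_of_mem _ List.mem_cons_self) _ _ (lB_blue e1 ▸ pure n1)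
          (lB_blue (fun a => e1 (e.2 a)) ▸ pure n2)
    have mk : ∀ (t : ℕ) (g : Fin t → Fin (k - 1) × Fin (l - 1)) (i : Fin 3), Function.Injective g →
        (∀ a b, a ≠ b → c s(ψ (g a), ψ (g b)) = i) → Mono G c i t := by
      intro t g i hg hc
      refine ⟨Finset.univ.map ⟨fun a => ψ (g a), hψ.1.comp hg⟩, ⟨?_, by simp⟩, ?_⟩
      · intro u hu v hv hne
        obtain ⟨a, _, rfl⟩ := Finset.mem_map.1 (Finset.mem_coe.1 hu)
        obtain ⟨b, _, rfl⟩ := Finset.mem_map.1 (Finset.mem_coe.1 hv)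
        refine ⟨hne, ?_⟩
        have hab : g a ≠ g b := fun e => hne (congrArg ψ e)
        show lab {ψ (g a), ψ (g b)} ≠ ⊥
        rw [← Set.image_pair, hψ.2]
        by_cases e1 : (g a).2 = (g b).2
        · rw [lB_red hab e1]; simp
        · rw [lB_blue e1]; simp
      · intro u hu v hv hne
        obtain ⟨a, _, rfl⟩ := Finset.mem_map.1 hu
        obtain ⟨b, _, rfl⟩ := Finset.mem_map.1 hv
        exact hc a b fun e => hne (by rw [e])
    let p0 : Fin (k - 1) := ⟨0, by omega⟩
    let p1 : Fin (k - 1) := ⟨1, by omega⟩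
    let q0 : Fin (l - 1) := ⟨0, by omega⟩
    let q1 : Fin (l - 1) := ⟨1, by omega⟩
    have red : ∀ x y : Fin (k - 1) × Fin (l - 1), x ≠ y → x.2 = y.2 →
        c s(ψ x, ψ y) = c s(ψ (p0, q0), ψ (p1, q0)) := fun x y n e =>
      same _ _ _ _ n (by simp [p0, p1]) (by simp [e])
    have blue : ∀ x y : Fin (k - 1) × Fin (l - 1), x.2 ≠ y.2 →
        c s(ψ x, ψ y) = c s(ψ (p0, q0), ψ (p0, q1)) := fun x y e =>
      same _ _ _ _ (fun a => e (by rw [a])) (by simp [q0, q1]) (by simp [e, q0, q1])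
    have mr : ∀ t (ht : t ≤ k - 1), Mono G c (c s(ψ (p0, q0), ψ (p1, q0))) t := fun t ht =>
      mk t (fun a => (Fin.castLE ht a, q0)) _ (fun a b e => by simpa using e)
        fun a b n => red _ _ (by simpa using n) rfl
    have mb : ∀ t (ht : t ≤ l - 1), Mono G c (c s(ψ (p0, q0), ψ (p0, q1))) t := fun t ht =>
      mk t (fun a => (p0, Fin.castLE ht a)) _ (fun a b e => by simpa using e)
        fun a b n => blue _ _ (by simpa using n)
    have three : ∀ i : Fin 3, i = 0 ∨ i = 1 ∨ i = 2 := by decide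
    rcases three (c s(ψ (p0, q0), ψ (p1, q0))) with a | a | a
    · exact Or.inl (a ▸ mr _ le_rfl)
    · exact Or.inr (Or.inl (a ▸ mr _ le_rfl))
    by_cases hkl : l ≤ k - 1
    · exact Or.inr (Or.inr (a ▸ mr _ hkl))
    rcases three (c s(ψ (p0, q0), ψ (p0, q1))) with b | b | b
    · exact Or.inl (b ▸ mb _ (by omega))
    · exact Or.inr (Or.inl (b ▸ mb _ (by omega)))
    · obtain ⟨g⟩ : Nonempty (Fin l ↪ Fin (k - 1) × Fin (l - 1)) :=
        Function.Embedding.nonempty_of_card_le (by
          simp only [Fintype.card_fin, Fintype.card_prod]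
          have : 2 * (l - 1) ≤ (k - 1) * (l - 1) := Nat.mul_le_mul_right _ (by omega)
          omega)
      refine Or.inr (Or.inr (mk l g 2 g.injective fun x y n => ?_))
      by_cases e : (g x).2 = (g y).2
      · rw [red _ _ (g.injective.ne n) e, a]
      · rw [blue _ _ e, b]

end Pool.Agent.Results.MP_6ce170_co.Full
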